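import Pool.Agent.W254.LF.Stm
import Pool.Agent.W289.SL.PLog

/-!
# The Iwasawa logarithm is analytic
-/

set_option autoImplicit false

namespace Pool.Agent.W398.LF

open Filter Topology Pool.Agent.W289.SL FormalMultilinearSeries

/-- the coefficients of `log (1 + z)` -/
noncomputable def cf (p : ℕ) [Fact p.Prime] (n : ℕ) : ℂ_[p] := (-1) ^ (n + 1) / (n : ℂ_[p])

lemma cf_zero (p : ℕ) [Fact p.Prime] : cf p 0 = 0 := by simp [cf]

lemma cf_one (p : ℕ) [Fact p.Prime] : cf p 1 = 1 := by simp [cf]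

lemma cf_norm (p : ℕ) [Fact p.Prime] (n : ℕ) : ‖cf p n‖ ≤ n := by
  rcases Nat.eq_zero_or_pos n with rfl | hn
  · simp [cf_zero]
  · have h := one_le_norm_natCast (p := p) n hn.ne'
    have hpos : 0 < ‖(n : ℂ_[p])‖ := by
      rw [norm_pos_iff]
      exact_mod_cast hn.ne'
    unfold cf
    rw [norm_div, norm_pow, norm_neg, norm_one, one_pow, div_le_iff₀ hpos]
    linarith [mul_comm ‖(n : ℂ_[p])‖ (n : ℝ)]

theorem hasF (p : ℕ) [Fact p.Prime] (L : ℂ_[p] → ℂ_[p]) (hL : IsIwasawaLog p L) :
    HasFPowerSeriesOnBall (fun z => L (1 + z)) (ofScalars ℂ_[p] (cf p)) 0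
      (((1 / 2 : NNReal)) : ENNReal) where
  r_le := by
    apply FormalMultilinearSeries.le_radius_of_bound _ 1
    intro n
    rw [ofScalars_norm]
    have h1 := cf_norm p n
    have h2 : (n : ℝ) ≤ 2 ^ n := by
      exact_mod_cast (Nat.lt_two_pow_self (n := n)).le
    have h3 : (((1 / 2 : NNReal)) : ℝ) = 1 / 2 := by push_cast; rfl
    rw [h3, one_div, inv_pow]
    have h4 : (0 : ℝ) < 2 ^ n := by positivity
    rw [mul_inv_le_iff₀ h4, one_mul]
    linarith
  r_pos := by
    rw [ENNReal.coe_pos]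
    norm_num
  hasSum := by
    intro y hy
    have hy1 : ‖y‖ < 1 := by
      rw [mem_eball_zero_iff] at hy
      have : ‖y‖₊ < (1 / 2 : NNReal) := by
        exact_mod_cast hy
      have h2 : ‖y‖ < ((1 / 2 : NNReal) : ℝ) := by exact_mod_cast this
      have h3 : (((1 / 2 : NNReal)) : ℝ) = 1 / 2 := by push_cast; rfl
      rw [h3] at h2
      linarith
    have h1 := hL.ser y hy1
    rw [zero_add]
    rw [← hasSum_nat_add_iff' 1]
    simp only [Finset.range_one, Finset.sum_singleton, ofScalars_apply_eq, cf_zero, zero_smul,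
      sub_zero]
    have e : (fun n : ℕ => cf p (n + 1) • y ^ (n + 1)) =
        fun n : ℕ => (-1 : ℂ_[p]) ^ n * y ^ (n + 1) / ((n : ℂ_[p]) + 1) := by
      funext n
      unfold cf
      rw [smul_eq_mul]
      push_cast
      ring
    rw [e]
    exact h1

theorem t_LOG : Pool.Agent.W254.LF.S_LOG := by
  intro p _ L hL x hx
  have h0 : HasFPowerSeriesAt (fun z => L (1 + z)) (ofScalars ℂ_[p] (cf p)) 0 :=
    (hasF p L hL).hasFPowerSeriesAt
  have hA : AnalyticAt ℂ_[p] (fun z => L (1 + z)) 0 := h0.analyticAt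
  have hD : HasDerivAt (fun z => L (1 + z)) 1 0 := by
    have := h0.hasDerivAt
    simp only [ofScalars_apply_eq, cf_one, one_smul, one_pow] at this
    exact this
  have hev : ∀ᶠ y in 𝓝 x, L x + L (1 + (y - x) / x) = L y := by
    filter_upwards [isOpen_ne.mem_nhds hx] with y hy
    have hy' : y ≠ 0 := hy
    have e : y = x * (1 + (y - x) / x) := by field_simp; ring
    have hne : (1 + (y - x) / x) ≠ 0 := by
      intro h
      rw [h, mul_zero] at e
      exact hy' e
    conv_rhs => rw [e]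
    rw [hL.mul _ _ hx hne]
  have hg : AnalyticAt ℂ_[p] (fun y : ℂ_[p] => (y - x) / x) x := by
    fun_prop (disch := assumption)
  have hgx : (x - x) / x = 0 := by simp
  constructor
  · have h1 : AnalyticAt ℂ_[p] ((fun z => L (1 + z)) ∘ (fun y : ℂ_[p] => (y - x) / x)) x :=
      AnalyticAt.comp (by simp only [hgx]; exact hA) hg
    have h2 : AnalyticAt ℂ_[p] (fun y => L x + L (1 + (y - x) / x)) x :=
      analyticAt_const.add h1
    exact h2.congr hev
  · have hg' : HasDerivAt (fun y : ℂ_[p] => (y - x) / x) x⁻¹ x := by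
      have := ((hasDerivAt_id x).sub_const x).div_const x
      simpa [one_div] using this
    have h1 : HasDerivAt ((fun z => L (1 + z)) ∘ (fun y : ℂ_[p] => (y - x) / x)) (1 * x⁻¹) x :=
      HasDerivAt.comp x (by simp only [hgx]; exact hD) hg'
    have h2 : HasDerivAt (fun y => L x + L (1 + (y - x) / x)) (x⁻¹) x := by
      have := h1.const_add (L x)
      rw [one_mul] at this
      exact this
    exact h2.congr_of_eventuallyEq (hev.mono fun y hy => hy.symm)

end Pool.Agent.W398.LF
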